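import Mathlib

/-!
# Searching a half-line with a faulty searcher: competitive ratio below `4 - p`

A trajectory is given by its turning points `t 0 = 0, t 1, t 2, ...`; leg `j` goes from `t j` to
`t (j + 1)` at unit speed.  The treasure is at `d ≥ 1`.  It is detected with probability `p` each
time the searcher passes over it, and with certainty if it lies exactly at a turning point.
We show that for `p = 1/3` there is a trajectory whose competitive ratio is at most `3.66`, which is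
smaller than `4 - p = 11/3`.  So the answer to Q1 is no.
-/

open Finset
open scoped ENNReal

namespace Pool.Agent.Results.MP_1aa7fe_lc.BelowFourMinusP

/-- The sequence `t` of turning points is a trajectory: it starts at the origin, and the searcher
moves outward from `t (2 i)` to `t (2 i + 1)` and inward from `t (2 i + 1)` to `t (2 i + 2)`. -/
structure IsTrajectory (t : ℕ → ℝ) : Prop where
  start : t 0 = 0
  nonneg : ∀ i, 0 ≤ t i
  outward : ∀ i, t (2 * i) < t (2 * i + 1)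
  inward : ∀ i, t (2 * i + 2) < t (2 * i + 1)

/-- The time at which leg `j` starts. -/
noncomputable def startTime (t : ℕ → ℝ) (j : ℕ) : ℝ := ∑ k ∈ range j, |t (k + 1) - t k|

/-- The searcher passes over `d` during leg `j` (`d` is strictly between the endpoints). -/
def Passes (t : ℕ → ℝ) (d : ℝ) (j : ℕ) : Prop :=
  min (t j) (t (j + 1)) < d ∧ d < max (t j) (t (j + 1))

open Classical in
/-- The probability that a treasure at `d`, not detected before leg `j`, is detected during leg `j`: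
it is `1` if the leg ends at `d` (a turning point), `p` if the searcher passes over `d`, and `0`
otherwise. -/
noncomputable def hit (p : ℝ) (t : ℕ → ℝ) (d : ℝ) (j : ℕ) : ℝ :=
  if t (j + 1) = d then 1 else if Passes t d j then p else 0

/-- The probability that a treasure at `d` is not detected before leg `j`. -/
noncomputable def surv (p : ℝ) (t : ℕ → ℝ) (d : ℝ) (j : ℕ) : ℝ :=
  ∏ k ∈ range j, (1 - hit p t d k)

/-- The time at which the searcher is at `d` during leg `j`. -/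
noncomputable def passTime (t : ℕ → ℝ) (d : ℝ) (j : ℕ) : ℝ := startTime t j + |d - t j|

/-- The expected time of the first detection of a treasure at `d` (infinite if it is not detected
almost surely). -/
noncomputable def expectedTime (p : ℝ) (t : ℕ → ℝ) (d : ℝ) : ℝ≥0∞ :=
  ∑' j, ENNReal.ofReal (surv p t d j * hit p t d j) * ENNReal.ofReal (passTime t d j) +
    ⊤ * (1 - ∑' j, ENNReal.ofReal (surv p t d j * hit p t d j))

/-- The trajectory is feasible: all expected detection times are finite. -/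
def Feasible (p : ℝ) (t : ℕ → ℝ) : Prop := ∀ d : ℝ, 1 ≤ d → expectedTime p t d ≠ ⊤

/-- The competitive ratio. -/
noncomputable def competitiveRatio (p : ℝ) (t : ℕ → ℝ) : ℝ≥0∞ :=
  ⨆ (d : ℝ) (_ : 1 ≤ d), ENNReal.ofReal p * expectedTime p t d / ENNReal.ofReal d

/-! ### The trajectory -/

/-- The turning points of one period. -/
noncomputable def cc : ℕ → ℝ
  | 0 => 0
  | 1 => 1
  | 2 => 5 / 6
  | 3 => 5 / 4
  | 4 => 4 / 9
  | 5 => 40 / 81
  | _ => 0

/-- The turning points: six in each period, and each period is scaled by `3/2`. -/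
noncomputable def tt (j : ℕ) : ℝ := (3 / 2 : ℝ) ^ (j / 6) * cc (j % 6)

/-- The scale of period `n`. -/
noncomputable def BB (n : ℕ) : ℝ := (3 / 2 : ℝ) ^ n

lemma BB_pos (n : ℕ) : 0 < BB n := by unfold BB; positivity
lemma BB_succ (n : ℕ) : BB (n + 1) = 3 / 2 * BB n := by unfold BB; rw [pow_succ]; ring

lemma tt0 (n : ℕ) : tt (6 * n) = 0 := by
  have h1 : 6 * n / 6 = n := by omega
  have h2 : 6 * n % 6 = 0 := by omega
  simp [tt, h2, cc]
lemma tt1 (n : ℕ) : tt (6 * n + 1) = BB n := by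
  have h1 : (6 * n + 1) / 6 = n := by omega
  have h2 : (6 * n + 1) % 6 = 1 := by omega
  simp [tt, h1, h2, cc, BB]
lemma tt2 (n : ℕ) : tt (6 * n + 2) = 5 / 6 * BB n := by
  have h1 : (6 * n + 2) / 6 = n := by omega
  have h2 : (6 * n + 2) % 6 = 2 := by omega
  simp [tt, h1, h2, cc, BB]; ring
lemma tt3 (n : ℕ) : tt (6 * n + 3) = 5 / 4 * BB n := by
  have h1 : (6 * n + 3) / 6 = n := by omega
  have h2 : (6 * n + 3) % 6 = 3 := by omega
  simp [tt, h1, h2, cc, BB]; ring
lemma tt4 (n : ℕ) : tt (6 * n + 4) = 4 / 9 * BB n := by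
  have h1 : (6 * n + 4) / 6 = n := by omega
  have h2 : (6 * n + 4) % 6 = 4 := by omega
  simp [tt, h1, h2, cc, BB]; ring
lemma tt5 (n : ℕ) : tt (6 * n + 5) = 40 / 81 * BB n := by
  have h1 : (6 * n + 5) / 6 = n := by omega
  have h2 : (6 * n + 5) % 6 = 5 := by omega
  simp [tt, h1, h2, cc, BB]; ring
lemma tt6 (n : ℕ) : tt (6 * n + 6) = 0 := by
  have := tt0 (n + 1)
  rwa [show 6 * (n + 1) = 6 * n + 6 by ring] at this

lemma isTrajectory_tt : IsTrajectory tt := by
  have key : ∀ i : ℕ, ∃ n, i = 3 * n ∨ i = 3 * n + 1 ∨ i = 3 * n + 2 := fun i => ⟨i / 3, by omega⟩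
  refine ⟨by have := tt0 0; simpa using this, ?_, ?_, ?_⟩
  · intro i
    unfold tt
    have h : i % 6 < 6 := Nat.mod_lt _ (by norm_num)
    have : 0 ≤ cc (i % 6) := by
      interval_cases i % 6 <;> norm_num [cc]
    positivity
  · intro i
    obtain ⟨n, h | h | h⟩ := key i
    · rw [h, show 2 * (3 * n) = 6 * n by ring, tt0, tt1]; exact BB_pos n
    · rw [h, show 2 * (3 * n + 1) + 1 = 6 * n + 3 by ring, show 2 * (3 * n + 1) = 6 * n + 2 by ring,
        tt2, tt3]
      have := BB_pos n; linarith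
    · rw [h, show 2 * (3 * n + 2) + 1 = 6 * n + 5 by ring, show 2 * (3 * n + 2) = 6 * n + 4 by ring,
        tt4, tt5]
      have := BB_pos n; linarith
  · intro i
    obtain ⟨n, h | h | h⟩ := key i
    · rw [h, show 2 * (3 * n) + 2 = 6 * n + 2 by ring, show 2 * (3 * n) + 1 = 6 * n + 1 by ring,
        tt2, tt1]
      have := BB_pos n; linarith
    · rw [h, show 2 * (3 * n + 1) + 2 = 6 * n + 4 by ring,
        show 2 * (3 * n + 1) + 1 = 6 * n + 3 by ring, tt4, tt3]
      have := BB_pos n; linarith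
    · rw [h, show 2 * (3 * n + 2) + 2 = 6 * n + 6 by ring,
        show 2 * (3 * n + 2) + 1 = 6 * n + 5 by ring, tt6, tt5]
      have := BB_pos n; linarith

/-! ### Times -/

lemma startTime_succ (t : ℕ → ℝ) (j : ℕ) :
    startTime t (j + 1) = startTime t j + |t (j + 1) - t j| := by
  unfold startTime; rw [sum_range_succ]

/-- Start time of period `n`. -/
noncomputable def SS (n : ℕ) : ℝ := startTime tt (6 * n)

lemma st1 (n : ℕ) : startTime tt (6 * n + 1) = SS n + BB n := by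
  rw [startTime_succ, tt0, tt1, sub_zero, abs_of_pos (BB_pos n)]; rfl
lemma st2 (n : ℕ) : startTime tt (6 * n + 2) = SS n + 7 / 6 * BB n := by
  have := BB_pos n
  rw [show 6 * n + 2 = (6 * n + 1) + 1 by ring, startTime_succ, st1,
    show 6 * n + 1 + 1 = 6 * n + 2 by ring, tt1, tt2, abs_of_neg (by linarith)]; ring
lemma st3 (n : ℕ) : startTime tt (6 * n + 3) = SS n + 19 / 12 * BB n := by
  have := BB_pos n
  rw [show 6 * n + 3 = (6 * n + 2) + 1 by ring, startTime_succ, st2,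
    show 6 * n + 2 + 1 = 6 * n + 3 by ring, tt2, tt3, abs_of_pos (by linarith)]; ring
lemma st4 (n : ℕ) : startTime tt (6 * n + 4) = SS n + 43 / 18 * BB n := by
  have := BB_pos n
  rw [show 6 * n + 4 = (6 * n + 3) + 1 by ring, startTime_succ, st3,
    show 6 * n + 3 + 1 = 6 * n + 4 by ring, tt3, tt4, abs_of_neg (by linarith)]; ring
lemma st5 (n : ℕ) : startTime tt (6 * n + 5) = SS n + 395 / 162 * BB n := by
  have := BB_pos n
  rw [show 6 * n + 5 = (6 * n + 4) + 1 by ring, startTime_succ, st4,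
    show 6 * n + 4 + 1 = 6 * n + 5 by ring, tt4, tt5, abs_of_pos (by linarith)]; ring
lemma st6 (n : ℕ) : SS (n + 1) = SS n + 475 / 162 * BB n := by
  have := BB_pos n
  unfold SS
  rw [show 6 * (n + 1) = (6 * n + 5) + 1 by ring, startTime_succ, st5,
    show 6 * n + 5 + 1 = 6 * n + 6 by ring, tt5, tt6, abs_of_neg (by linarith)]; unfold SS; ring

lemma SS_eq (n : ℕ) : SS n = 475 / 81 * (BB n - 1) := by
  induction n with
  | zero => simp [SS, startTime, BB]
  | succ n ih => rw [st6, ih, BB_succ]; ring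

/-! ### One period -/

section period

variable (d : ℝ)

/-- the detection probabilities -/
noncomputable def hh (j : ℕ) : ℝ := hit (1 / 3) tt d j
/-- the survival probability at the start of period `n` -/
noncomputable def sv (n : ℕ) : ℝ := surv (1 / 3) tt d (6 * n)
/-- the partial sums of the expected time at the start of period `n` -/
noncomputable def PP (n : ℕ) : ℝ :=
  ∑ j ∈ range (6 * n), surv (1 / 3) tt d j * hit (1 / 3) tt d j * passTime tt d j

lemma surv_succ (j : ℕ) : surv (1 / 3) tt d (j + 1) = surv (1 / 3) tt d j * (1 - hh d j) := by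
  unfold surv hh; rw [prod_range_succ]

lemma sum_six (f : ℕ → ℝ) (m : ℕ) : ∑ j ∈ range (m + 6), f j =
    ∑ j ∈ range m, f j + (f m + f (m + 1) + f (m + 2) + f (m + 3) + f (m + 4) + f (m + 5)) := by
  rw [sum_range_succ, sum_range_succ, sum_range_succ, sum_range_succ, sum_range_succ,
    sum_range_succ]
  ring

lemma sr1 (m : ℕ) : surv (1 / 3) tt d (m + 1) = surv (1 / 3) tt d m * (1 - hh d m) :=
  surv_succ d m
lemma sr2 (m : ℕ) : surv (1 / 3) tt d (m + 2) =
    surv (1 / 3) tt d m * (1 - hh d m) * (1 - hh d (m + 1)) := by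
  rw [surv_succ d (m + 1), sr1]
lemma sr3 (m : ℕ) : surv (1 / 3) tt d (m + 3) =
    surv (1 / 3) tt d m * (1 - hh d m) * (1 - hh d (m + 1)) * (1 - hh d (m + 2)) := by
  rw [surv_succ d (m + 2), sr2]
lemma sr4 (m : ℕ) : surv (1 / 3) tt d (m + 4) =
    surv (1 / 3) tt d m * (1 - hh d m) * (1 - hh d (m + 1)) * (1 - hh d (m + 2)) *
      (1 - hh d (m + 3)) := by
  rw [surv_succ d (m + 3), sr3]
lemma sr5 (m : ℕ) : surv (1 / 3) tt d (m + 5) =
    surv (1 / 3) tt d m * (1 - hh d m) * (1 - hh d (m + 1)) * (1 - hh d (m + 2)) *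
      (1 - hh d (m + 3)) * (1 - hh d (m + 4)) := by
  rw [surv_succ d (m + 4), sr4]
lemma sr6 (m : ℕ) : surv (1 / 3) tt d (m + 6) =
    surv (1 / 3) tt d m * (1 - hh d m) * (1 - hh d (m + 1)) * (1 - hh d (m + 2)) *
      (1 - hh d (m + 3)) * (1 - hh d (m + 4)) * (1 - hh d (m + 5)) := by
  rw [surv_succ d (m + 5), sr5]

lemma sv_succ (n : ℕ) : sv d (n + 1) = sv d n * ((1 - hh d (6 * n)) * (1 - hh d (6 * n + 1)) *
    (1 - hh d (6 * n + 2)) * (1 - hh d (6 * n + 3)) * (1 - hh d (6 * n + 4)) *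
    (1 - hh d (6 * n + 5))) := by
  unfold sv
  rw [show 6 * (n + 1) = 6 * n + 6 by ring, sr6]
  ring

lemma PP_succ (n : ℕ) : PP d (n + 1) = PP d n + sv d n * (
    hh d (6 * n) * (SS n + |d|) +
    (1 - hh d (6 * n)) * hh d (6 * n + 1) * (SS n + BB n + |d - BB n|) +
    (1 - hh d (6 * n)) * (1 - hh d (6 * n + 1)) * hh d (6 * n + 2) *
      (SS n + 7 / 6 * BB n + |d - 5 / 6 * BB n|) +
    (1 - hh d (6 * n)) * (1 - hh d (6 * n + 1)) * (1 - hh d (6 * n + 2)) * hh d (6 * n + 3) *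
      (SS n + 19 / 12 * BB n + |d - 5 / 4 * BB n|) +
    (1 - hh d (6 * n)) * (1 - hh d (6 * n + 1)) * (1 - hh d (6 * n + 2)) *
      (1 - hh d (6 * n + 3)) * hh d (6 * n + 4) * (SS n + 43 / 18 * BB n + |d - 4 / 9 * BB n|) +
    (1 - hh d (6 * n)) * (1 - hh d (6 * n + 1)) * (1 - hh d (6 * n + 2)) *
      (1 - hh d (6 * n + 3)) * (1 - hh d (6 * n + 4)) * hh d (6 * n + 5) *
      (SS n + 395 / 162 * BB n + |d - 40 / 81 * BB n|)) := by
  have e0 : passTime tt d (6 * n) = SS n + |d| := by unfold passTime; rw [tt0, sub_zero]; rfl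
  have e1 : passTime tt d (6 * n + 1) = SS n + BB n + |d - BB n| := by
    unfold passTime; rw [tt1, st1]
  have e2 : passTime tt d (6 * n + 2) = SS n + 7 / 6 * BB n + |d - 5 / 6 * BB n| := by
    unfold passTime; rw [tt2, st2]
  have e3 : passTime tt d (6 * n + 3) = SS n + 19 / 12 * BB n + |d - 5 / 4 * BB n| := by
    unfold passTime; rw [tt3, st3]
  have e4 : passTime tt d (6 * n + 4) = SS n + 43 / 18 * BB n + |d - 4 / 9 * BB n| := by
    unfold passTime; rw [tt4, st4]
  have e5 : passTime tt d (6 * n + 5) = SS n + 395 / 162 * BB n + |d - 40 / 81 * BB n| := by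
    unfold passTime; rw [tt5, st5]
  have hs : ∀ j, hit (1 / 3) tt d j = hh d j := fun _ => rfl
  have hsv : surv (1 / 3) tt d (6 * n) = sv d n := rfl
  unfold PP
  rw [show 6 * (n + 1) = 6 * n + 6 by ring, sum_six, sr1, sr2, sr3, sr4, sr5, e0, e1, e2, e3, e4,
    e5, hs, hs, hs, hs, hs, hs, hsv]
  ring

variable {d}

lemma h_of_eq {j : ℕ} (h : tt (j + 1) = d) : hh d j = 1 := by
  unfold hh hit; rw [if_pos h]

lemma h_of_passes {j : ℕ} {a b : ℝ} (ha : tt j = a) (hb : tt (j + 1) = b)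
    (h : (a < d ∧ d < b) ∨ (b < d ∧ d < a)) : hh d j = 1 / 3 := by
  unfold hh hit Passes
  rw [ha, hb]
  rcases h with ⟨h1, h2⟩ | ⟨h1, h2⟩
  · rw [if_neg (by linarith), if_pos]
    rw [min_eq_left (by linarith), max_eq_right (by linarith)]; exact ⟨h1, h2⟩
  · rw [if_neg (by linarith), if_pos]
    rw [min_eq_right (by linarith), max_eq_left (by linarith)]; exact ⟨h1, h2⟩

lemma h_of_not {j : ℕ} {a b : ℝ} (ha : tt j = a) (hb : tt (j + 1) = b)
    (h : (a ≤ d ∧ b < d) ∨ (d ≤ a ∧ d < b)) : hh d j = 0 := by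
  unfold hh hit Passes
  rw [ha, hb]
  rcases h with ⟨h1, h2⟩ | ⟨h1, h2⟩
  · rw [if_neg (by linarith), if_neg]
    rintro ⟨-, h3⟩
    exact absurd h3 (not_lt.2 (max_le h1 h2.le))
  · rw [if_neg (by linarith), if_neg]
    rintro ⟨h3, -⟩
    exact absurd h3 (not_lt.2 (le_min h1 h2.le))

/-- no crossing -/
lemma per_none {n : ℕ} (h : 5 / 4 * BB n < d) : PP d (n + 1) = PP d n ∧ sv d (n + 1) = sv d n := by
  have hB := BB_pos n
  have g0 : hh d (6 * n) = 0 := h_of_not (tt0 n) (tt1 n) (Or.inl ⟨by linarith, by linarith⟩)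
  have g1 : hh d (6 * n + 1) = 0 := h_of_not (tt1 n) (tt2 n) (Or.inl ⟨by linarith, by linarith⟩)
  have g2 : hh d (6 * n + 2) = 0 := h_of_not (tt2 n) (tt3 n) (Or.inl ⟨by linarith, by linarith⟩)
  have g3 : hh d (6 * n + 3) = 0 := h_of_not (tt3 n) (tt4 n) (Or.inl ⟨by linarith, by linarith⟩)
  have g4 : hh d (6 * n + 4) = 0 := h_of_not (tt4 n) (tt5 n) (Or.inl ⟨by linarith, by linarith⟩)
  have g5 : hh d (6 * n + 5) = 0 := h_of_not (tt5 n) (tt6 n) (Or.inl ⟨by linarith, by linarith⟩)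
  rw [PP_succ, sv_succ, g0, g1, g2, g3, g4, g5]
  constructor <;> ring

/-- late periods: two crossings -/
lemma per_late {n : ℕ} (hd : 0 < d) (h : d < 4 / 9 * BB n) :
    PP d (n + 1) = PP d n + sv d n * (1 / 3 * (SS n + d) + 2 / 9 * (SS (n + 1) - d)) ∧
    sv d (n + 1) = sv d n * (4 / 9) := by
  have hB := BB_pos n
  have g0 : hh d (6 * n) = 1 / 3 :=
    h_of_passes (tt0 n) (tt1 n) (Or.inl ⟨by linarith, by linarith⟩)
  have g1 : hh d (6 * n + 1) = 0 := h_of_not (tt1 n) (tt2 n) (Or.inr ⟨by linarith, by linarith⟩)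
  have g2 : hh d (6 * n + 2) = 0 := h_of_not (tt2 n) (tt3 n) (Or.inr ⟨by linarith, by linarith⟩)
  have g3 : hh d (6 * n + 3) = 0 := h_of_not (tt3 n) (tt4 n) (Or.inr ⟨by linarith, by linarith⟩)
  have g4 : hh d (6 * n + 4) = 0 := h_of_not (tt4 n) (tt5 n) (Or.inr ⟨by linarith, by linarith⟩)
  have g5 : hh d (6 * n + 5) = 1 / 3 :=
    h_of_passes (tt5 n) (tt6 n) (Or.inr ⟨by linarith, by linarith⟩)
  rw [PP_succ, sv_succ, g0, g1, g2, g3, g4, g5, st6, abs_of_pos hd,
    abs_of_neg (show d - 40 / 81 * BB n < 0 by linarith)]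
  constructor <;> ring

/-- first relevant period, `5/6 B < d < B` -/
lemma per_A {n : ℕ} (h1 : 5 / 6 * BB n < d) (h2 : d < BB n) :
    PP d (n + 1) = PP d n + sv d n * (1 / 3 * (SS n + d) + 2 / 9 * (SS n + 2 * BB n - d) +
      4 / 27 * (SS n + 1 / 3 * BB n + d) + 8 / 81 * (SS n + 17 / 6 * BB n - d)) ∧
    sv d (n + 1) = sv d n * (16 / 81) := by
  have hB := BB_pos n
  have hd : 0 < d := by linarith
  have g0 : hh d (6 * n) = 1 / 3 :=
    h_of_passes (tt0 n) (tt1 n) (Or.inl ⟨by linarith, by linarith⟩)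
  have g1 : hh d (6 * n + 1) = 1 / 3 :=
    h_of_passes (tt1 n) (tt2 n) (Or.inr ⟨by linarith, by linarith⟩)
  have g2 : hh d (6 * n + 2) = 1 / 3 :=
    h_of_passes (tt2 n) (tt3 n) (Or.inl ⟨by linarith, by linarith⟩)
  have g3 : hh d (6 * n + 3) = 1 / 3 :=
    h_of_passes (tt3 n) (tt4 n) (Or.inr ⟨by linarith, by linarith⟩)
  have g4 : hh d (6 * n + 4) = 0 := h_of_not (tt4 n) (tt5 n) (Or.inl ⟨by linarith, by linarith⟩)
  have g5 : hh d (6 * n + 5) = 0 := h_of_not (tt5 n) (tt6 n) (Or.inl ⟨by linarith, by linarith⟩)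
  rw [PP_succ, sv_succ, g0, g1, g2, g3, g4, g5, abs_of_pos hd,
    abs_of_neg (show d - BB n < 0 by linarith), abs_of_pos (show 0 < d - 5 / 6 * BB n by linarith),
    abs_of_neg (show d - 5 / 4 * BB n < 0 by linarith)]
  constructor <;> ring

/-- first relevant period, `B < d < 5/4 B` -/
lemma per_BC {n : ℕ} (h1 : BB n < d) (h2 : d < 5 / 4 * BB n) :
    PP d (n + 1) = PP d n + sv d n * (1 / 3 * (SS n + 1 / 3 * BB n + d) +
      2 / 9 * (SS n + 17 / 6 * BB n - d)) ∧
    sv d (n + 1) = sv d n * (4 / 9) := by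
  have hB := BB_pos n
  have hd : 0 < d := by linarith
  have g0 : hh d (6 * n) = 0 := h_of_not (tt0 n) (tt1 n) (Or.inl ⟨by linarith, by linarith⟩)
  have g1 : hh d (6 * n + 1) = 0 := h_of_not (tt1 n) (tt2 n) (Or.inl ⟨by linarith, by linarith⟩)
  have g2 : hh d (6 * n + 2) = 1 / 3 :=
    h_of_passes (tt2 n) (tt3 n) (Or.inl ⟨by linarith, by linarith⟩)
  have g3 : hh d (6 * n + 3) = 1 / 3 :=
    h_of_passes (tt3 n) (tt4 n) (Or.inr ⟨by linarith, by linarith⟩)
  have g4 : hh d (6 * n + 4) = 0 := h_of_not (tt4 n) (tt5 n) (Or.inl ⟨by linarith, by linarith⟩)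
  have g5 : hh d (6 * n + 5) = 0 := h_of_not (tt5 n) (tt6 n) (Or.inl ⟨by linarith, by linarith⟩)
  rw [PP_succ, sv_succ, g0, g1, g2, g3, g4, g5,
    abs_of_pos (show 0 < d - 5 / 6 * BB n by linarith),
    abs_of_neg (show d - 5 / 4 * BB n < 0 by linarith)]
  constructor <;> ring

/-- `40/81 B < d < 5/6 B` -/
lemma per_mid {n : ℕ} (h1 : 40 / 81 * BB n < d) (h2 : d < 5 / 6 * BB n) :
    PP d (n + 1) = PP d n + sv d n * (1 / 3 * (SS n + d) +
      2 / 9 * (SS n + 17 / 6 * BB n - d)) ∧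
    sv d (n + 1) = sv d n * (4 / 9) := by
  have hB := BB_pos n
  have hd : 0 < d := by linarith
  have g0 : hh d (6 * n) = 1 / 3 :=
    h_of_passes (tt0 n) (tt1 n) (Or.inl ⟨by linarith, by linarith⟩)
  have g1 : hh d (6 * n + 1) = 0 := h_of_not (tt1 n) (tt2 n) (Or.inr ⟨by linarith, by linarith⟩)
  have g2 : hh d (6 * n + 2) = 0 := h_of_not (tt2 n) (tt3 n) (Or.inr ⟨by linarith, by linarith⟩)
  have g3 : hh d (6 * n + 3) = 1 / 3 :=
    h_of_passes (tt3 n) (tt4 n) (Or.inr ⟨by linarith, by linarith⟩)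
  have g4 : hh d (6 * n + 4) = 0 := h_of_not (tt4 n) (tt5 n) (Or.inl ⟨by linarith, by linarith⟩)
  have g5 : hh d (6 * n + 5) = 0 := h_of_not (tt5 n) (tt6 n) (Or.inl ⟨by linarith, by linarith⟩)
  rw [PP_succ, sv_succ, g0, g1, g2, g3, g4, g5, abs_of_pos hd,
    abs_of_neg (show d - 5 / 4 * BB n < 0 by linarith)]
  constructor <;> ring

/-- `4/9 B < d < 40/81 B` -/
lemma per_B2 {n : ℕ} (h1 : 4 / 9 * BB n < d) (h2 : d < 40 / 81 * BB n) :
    PP d (n + 1) = PP d n + sv d n * (1 / 3 * (SS n + d) +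
      2 / 9 * (SS n + 17 / 6 * BB n - d) + 4 / 27 * (SS n + 35 / 18 * BB n + d) +
      8 / 81 * (SS n + 475 / 162 * BB n - d)) ∧
    sv d (n + 1) = sv d n * (16 / 81) := by
  have hB := BB_pos n
  have hd : 0 < d := by linarith
  have g0 : hh d (6 * n) = 1 / 3 :=
    h_of_passes (tt0 n) (tt1 n) (Or.inl ⟨by linarith, by linarith⟩)
  have g1 : hh d (6 * n + 1) = 0 := h_of_not (tt1 n) (tt2 n) (Or.inr ⟨by linarith, by linarith⟩)
  have g2 : hh d (6 * n + 2) = 0 := h_of_not (tt2 n) (tt3 n) (Or.inr ⟨by linarith, by linarith⟩)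
  have g3 : hh d (6 * n + 3) = 1 / 3 :=
    h_of_passes (tt3 n) (tt4 n) (Or.inr ⟨by linarith, by linarith⟩)
  have g4 : hh d (6 * n + 4) = 1 / 3 :=
    h_of_passes (tt4 n) (tt5 n) (Or.inl ⟨by linarith, by linarith⟩)
  have g5 : hh d (6 * n + 5) = 1 / 3 :=
    h_of_passes (tt5 n) (tt6 n) (Or.inr ⟨by linarith, by linarith⟩)
  rw [PP_succ, sv_succ, g0, g1, g2, g3, g4, g5, abs_of_pos hd,
    abs_of_neg (show d - 5 / 4 * BB n < 0 by linarith),
    abs_of_pos (show 0 < d - 4 / 9 * BB n by linarith),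
    abs_of_neg (show d - 40 / 81 * BB n < 0 by linarith)]
  constructor <;> ring

/-- `d = 40/81 B` -/
lemma per_B3 {n : ℕ} (h1 : d = 40 / 81 * BB n) :
    PP d (n + 1) = PP d n + sv d n * (1 / 3 * (SS n + d) +
      2 / 9 * (SS n + 17 / 6 * BB n - d) + 4 / 9 * (SS n + 35 / 18 * BB n + d)) ∧
    sv d (n + 1) = 0 := by
  have hB := BB_pos n
  have hd : 0 < d := by linarith
  have g0 : hh d (6 * n) = 1 / 3 :=
    h_of_passes (tt0 n) (tt1 n) (Or.inl ⟨by linarith, by linarith⟩)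
  have g1 : hh d (6 * n + 1) = 0 := h_of_not (tt1 n) (tt2 n) (Or.inr ⟨by linarith, by linarith⟩)
  have g2 : hh d (6 * n + 2) = 0 := h_of_not (tt2 n) (tt3 n) (Or.inr ⟨by linarith, by linarith⟩)
  have g3 : hh d (6 * n + 3) = 1 / 3 :=
    h_of_passes (tt3 n) (tt4 n) (Or.inr ⟨by linarith, by linarith⟩)
  have g4 : hh d (6 * n + 4) = 1 := h_of_eq (by rw [tt5, h1])
  rw [PP_succ, sv_succ, g0, g1, g2, g3, g4, abs_of_pos hd,
    abs_of_neg (show d - 5 / 4 * BB n < 0 by linarith),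
    abs_of_pos (show 0 < d - 4 / 9 * BB n by linarith)]
  constructor <;> ring

/-- `d = B` -/
lemma per_A1 {n : ℕ} (h1 : d = BB n) :
    PP d (n + 1) = PP d n + sv d n * (SS n + d) ∧ sv d (n + 1) = 0 := by
  have hB := BB_pos n
  have hd : 0 < d := by linarith
  have g0 : hh d (6 * n) = 1 := h_of_eq (by rw [tt1, h1])
  rw [PP_succ, sv_succ, g0, abs_of_pos hd]
  constructor <;> ring

/-- `d = 5/4 B` -/
lemma per_C1 {n : ℕ} (h1 : d = 5 / 4 * BB n) :
    PP d (n + 1) = PP d n + sv d n * (SS n + 1 / 3 * BB n + d) ∧ sv d (n + 1) = 0 := by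
  have hB := BB_pos n
  have hd : 0 < d := by linarith
  have g0 : hh d (6 * n) = 0 := h_of_not (tt0 n) (tt1 n) (Or.inl ⟨by linarith, by linarith⟩)
  have g1 : hh d (6 * n + 1) = 0 := h_of_not (tt1 n) (tt2 n) (Or.inl ⟨by linarith, by linarith⟩)
  have g2 : hh d (6 * n + 2) = 1 := h_of_eq (by rw [tt3, h1])
  rw [PP_succ, sv_succ, g0, g1, g2, abs_of_pos (show 0 < d - 5 / 6 * BB n by linarith)]
  constructor <;> ring

/-- The bound at some period, from which only regular periods follow. -/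
lemma exists_good (hd : 1 ≤ d) : ∃ m, PP d m + sv d m * (950 / 81 * BB m + d / 5) ≤
    549 / 50 * d ∧ (sv d m = 0 ∨ d < 4 / 9 * BB m) := by
  classical
  have hex : ∃ n, d ≤ 5 / 4 * BB n := by
    obtain ⟨n, hn⟩ := pow_unbounded_of_one_lt d (show (1 : ℝ) < 3 / 2 by norm_num)
    exact ⟨n, by have := BB_pos n; unfold BB at *; linarith⟩
  set K := Nat.find hex with hK
  have hK1 : d ≤ 5 / 4 * BB K := Nat.find_spec hex
  have hK2 : ∀ n < K, 5 / 4 * BB n < d := fun n hn => not_le.1 (Nat.find_min hex hn)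
  have hlow : 5 / 6 * BB K < d := by
    rcases Nat.eq_zero_or_pos K with h0 | h0
    · rw [h0]; simp only [BB, pow_zero]; linarith
    · have h1 := hK2 (K - 1) (by omega)
      have h2 : BB K = 3 / 2 * BB (K - 1) := by
        rw [← BB_succ]; congr 1; omega
      rw [h2]; linarith
  have hzero : ∀ n ≤ K, PP d n = 0 ∧ sv d n = 1 := by
    intro n
    induction n with
    | zero => intro _; simp [PP, sv, surv]
    | succ n ih =>
      intro hn
      obtain ⟨h1, h2⟩ := ih (by omega)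
      obtain ⟨h3, h4⟩ := per_none (hK2 n (by omega))
      exact ⟨h3.trans h1, h4.trans h2⟩
  obtain ⟨hP, hs⟩ := hzero K le_rfl
  have hB := BB_pos K
  have b1 : BB (K + 1) = 3 / 2 * BB K := BB_succ K
  have b2 : BB (K + 2) = 9 / 4 * BB K := by rw [BB_succ, b1]; ring
  have b3 : BB (K + 3) = 27 / 8 * BB K := by rw [BB_succ, b2]; ring
  have s0 := SS_eq K
  have s1 := SS_eq (K + 1)
  have s2 := SS_eq (K + 2)
  have s3 := SS_eq (K + 3)
  rw [b1] at s1
  rw [b2] at s2
  rw [b3] at s3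
  rcases lt_trichotomy d (BB K) with hA | hA | hA
  · -- case A
    obtain ⟨p1, q1⟩ := per_A hlow hA
    obtain ⟨p2, q2⟩ := per_mid (d := d) (n := K + 1) (by rw [b1]; linarith) (by rw [b1]; linarith)
    obtain ⟨p3, q3⟩ := per_late (d := d) (n := K + 2) (by linarith) (by rw [b2]; linarith)
    refine ⟨K + 3, ?_, Or.inr (by rw [b3]; linarith)⟩
    rw [p3, q3, p2, q2, p1, q1, hP, hs, b1, b3, s0, s1, s2, s3]
    linarith
  · obtain ⟨p1, q1⟩ := per_A1 hA
    refine ⟨K + 1, ?_, Or.inl q1⟩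
    rw [p1, q1, hP, hs, s0]
    linarith
  · rcases lt_trichotomy d (10 / 9 * BB K) with hC | hC | hC
    · obtain ⟨p1, q1⟩ := per_BC hA (by linarith)
      obtain ⟨p2, q2⟩ := per_mid (d := d) (n := K + 1) (by rw [b1]; linarith)
        (by rw [b1]; linarith)
      obtain ⟨p3, q3⟩ := per_B2 (d := d) (n := K + 2) (by rw [b2]; linarith)
        (by rw [b2]; linarith)
      refine ⟨K + 3, ?_, Or.inr (by rw [b3]; linarith)⟩
      rw [p3, q3, p2, q2, p1, q1, hP, hs, b1, b2, b3, s0, s1, s2]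
      linarith
    · obtain ⟨p1, q1⟩ := per_BC hA (by linarith)
      obtain ⟨p2, q2⟩ := per_mid (d := d) (n := K + 1) (by rw [b1]; linarith)
        (by rw [b1]; linarith)
      obtain ⟨p3, q3⟩ := per_B3 (d := d) (n := K + 2) (by rw [b2]; linarith)
      refine ⟨K + 3, ?_, Or.inl q3⟩
      rw [p3, q3, p2, q2, p1, q1, hP, hs, b1, b2, s0, s1, s2]
      linarith
    · rcases eq_or_lt_of_le hK1 with hD | hD
      · obtain ⟨p1, q1⟩ := per_C1 hD
        refine ⟨K + 1, ?_, Or.inl q1⟩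
        rw [p1, q1, hP, hs, s0]
        linarith
      · obtain ⟨p1, q1⟩ := per_BC hA hD
        obtain ⟨p2, q2⟩ := per_mid (d := d) (n := K + 1) (by rw [b1]; linarith)
          (by rw [b1]; linarith)
        obtain ⟨p3, q3⟩ := per_mid (d := d) (n := K + 2) (by rw [b2]; linarith)
          (by rw [b2]; linarith)
        refine ⟨K + 3, ?_, Or.inr (by rw [b3]; linarith)⟩
        rw [p3, q3, p2, q2, p1, q1, hP, hs, b1, b2, b3, s0, s1, s2]
        linarith

lemma hh_nonneg (j : ℕ) : 0 ≤ hh d j := by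
  unfold hh hit; split_ifs <;> norm_num
lemma hh_le (j : ℕ) : hh d j ≤ 1 := by
  unfold hh hit; split_ifs <;> norm_num
lemma surv_nonneg (j : ℕ) : 0 ≤ surv (1 / 3) tt d j := by
  unfold surv
  exact prod_nonneg fun k _ => by have := hh_le (d := d) k; unfold hh at this; linarith
lemma sv_nonneg (n : ℕ) : 0 ≤ sv d n := surv_nonneg _

lemma startTime_nonneg (t : ℕ → ℝ) (j : ℕ) : 0 ≤ startTime t j :=
  sum_nonneg fun _ _ => abs_nonneg _

lemma sh_nonneg (j : ℕ) : 0 ≤ surv (1 / 3) tt d j * hit (1 / 3) tt d j :=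
  mul_nonneg (surv_nonneg j) (hh_nonneg j)

lemma term_nonneg (j : ℕ) :
    0 ≤ surv (1 / 3) tt d j * hit (1 / 3) tt d j * passTime tt d j :=
  mul_nonneg (mul_nonneg (surv_nonneg j) (hh_nonneg j))
    (add_nonneg (startTime_nonneg _ _) (abs_nonneg _))

lemma PP_mono {m n : ℕ} (h : m ≤ n) : PP d m ≤ PP d n :=
  sum_le_sum_of_subset_of_nonneg (range_mono (by omega)) fun j _ _ => term_nonneg j

lemma BB_mono {m n : ℕ} (h : m ≤ n) : BB m ≤ BB n :=
  pow_le_pow_right₀ (by norm_num) h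

lemma tail_bound (hd : 0 < d) {m : ℕ} (hm : sv d m = 0 ∨ d < 4 / 9 * BB m) (n : ℕ) :
    PP d (m + n) + sv d (m + n) * (950 / 81 * BB (m + n) + d / 5) ≤
      PP d m + sv d m * (950 / 81 * BB m + d / 5) ∧ sv d (m + n) ≤ sv d m * (4 / 9) ^ n := by
  induction n with
  | zero => simp
  | succ n ih =>
    obtain ⟨ih1, ih2⟩ := ih
    have hsn := sv_nonneg (d := d) (m + n)
    rcases hm with hm | hm
    · have h0 : sv d (m + n) = 0 := le_antisymm (by rw [hm, zero_mul] at ih2; exact ih2) hsn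
      have h1 : sv d (m + (n + 1)) = 0 := by rw [← add_assoc, sv_succ, h0, zero_mul]
      have h2 : PP d (m + (n + 1)) = PP d (m + n) := by
        rw [← add_assoc, PP_succ, h0, zero_mul, add_zero]
      rw [h1, h2]
      rw [h0] at ih1
      refine ⟨by linarith, ?_⟩
      rw [hm]; simp
    · have hlt : d < 4 / 9 * BB (m + n) := by
        have := BB_mono (show m ≤ m + n by omega)
        linarith
      obtain ⟨p1, q1⟩ := per_late hd hlt
      have e1 := SS_eq (m + n)
      have e2 := SS_eq (m + n + 1)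
      have e3 := BB_succ (m + n)
      rw [← add_assoc, p1, q1, e2, e1, e3]
      constructor
      · refine le_trans ?_ ih1
        have : sv d (m + n) * (1 / 3 * (475 / 81 * (BB (m + n) - 1) + d) +
            2 / 9 * (475 / 81 * (3 / 2 * BB (m + n) - 1) - d)) +
            sv d (m + n) * (4 / 9) * (950 / 81 * (3 / 2 * BB (m + n)) + d / 5) =
            sv d (m + n) * (950 / 81 * BB (m + n) + d / 5) - sv d (m + n) * (2375 / 729) := by
          ring
        linarith [mul_nonneg hsn (show (0 : ℝ) ≤ 2375 / 729 by norm_num)]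
      · rw [pow_succ]; linarith

lemma PP_le (hd : 1 ≤ d) (n : ℕ) : PP d n ≤ 549 / 50 * d := by
  obtain ⟨m, h1, h2⟩ := exists_good hd
  obtain ⟨h3, -⟩ := tail_bound (by linarith) h2 n
  have h4 := mul_nonneg (sv_nonneg (d := d) (m + n))
    (show 0 ≤ 950 / 81 * BB (m + n) + d / 5 by have := BB_pos (m + n); linarith)
  have h5 := PP_mono (d := d) (show n ≤ m + n by omega)
  linarith

lemma sum_hit (n : ℕ) : ∑ j ∈ range n, surv (1 / 3) tt d j * hit (1 / 3) tt d j =
    1 - surv (1 / 3) tt d n := by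
  induction n with
  | zero => simp [surv]
  | succ n ih =>
    rw [sum_range_succ, ih, surv_succ]
    unfold hh; ring

lemma tsum_hit (hd : 1 ≤ d) :
    1 - ∑' j, ENNReal.ofReal (surv (1 / 3) tt d j * hit (1 / 3) tt d j) = 0 := by
  rw [tsub_eq_zero_iff_le]
  obtain ⟨m, -, h2⟩ := exists_good hd
  have hlim : Filter.Tendsto (fun n : ℕ => ENNReal.ofReal (1 - sv d (m + n))) Filter.atTop
      (nhds 1) := by
    have h0 : Filter.Tendsto (fun n : ℕ => sv d (m + n)) Filter.atTop (nhds 0) := by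
      refine squeeze_zero (fun n => sv_nonneg _) (fun n => (tail_bound (by linarith) h2 n).2) ?_
      have := (tendsto_pow_atTop_nhds_zero_of_lt_one (show (0 : ℝ) ≤ 4 / 9 by norm_num)
        (by norm_num)).const_mul (sv d m)
      simpa using this
    have := ENNReal.tendsto_ofReal (h0.const_sub 1)
    simpa using this
  refine le_of_tendsto' hlim fun n => ?_
  have h3 : ENNReal.ofReal (1 - sv d (m + n)) =
      ∑ j ∈ range (6 * (m + n)), ENNReal.ofReal (surv (1 / 3) tt d j * hit (1 / 3) tt d j) := by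
    rw [← ENNReal.ofReal_sum_of_nonneg fun j _ => sh_nonneg (d := d) j, sum_hit]
    rfl
  rw [h3]
  exact ENNReal.sum_le_tsum _

lemma expectedTime_le (hd : 1 ≤ d) :
    expectedTime (1 / 3) tt d ≤ ENNReal.ofReal (549 / 50 * d) := by
  unfold expectedTime
  rw [tsum_hit hd, mul_zero, add_zero]
  refine ENNReal.tsum_le_of_sum_range_le fun n => ?_
  have h1 : ∀ j, ENNReal.ofReal (surv (1 / 3) tt d j * hit (1 / 3) tt d j) *
      ENNReal.ofReal (passTime tt d j) =
      ENNReal.ofReal (surv (1 / 3) tt d j * hit (1 / 3) tt d j * passTime tt d j) := fun j => by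
    rw [ENNReal.ofReal_mul (sh_nonneg (d := d) j)]
  simp only [h1]
  rw [← ENNReal.ofReal_sum_of_nonneg fun j _ => term_nonneg j]
  refine ENNReal.ofReal_le_ofReal (le_trans ?_ (PP_le hd n))
  exact sum_le_sum_of_subset_of_nonneg (range_mono (by omega)) fun j _ _ => term_nonneg j

end period

/-- **Main theorem.**  For `p = 1/3` there is a feasible trajectory of competitive ratio at most
`3.66 < 4 - p`. -/
theorem result : ∃ p : ℝ, 0 < p ∧ p < 1 ∧ ∃ t : ℕ → ℝ, IsTrajectory t ∧ Feasible p t ∧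
    competitiveRatio p t < ENNReal.ofReal (4 - p) := by
  refine ⟨1 / 3, by norm_num, by norm_num, tt, isTrajectory_tt, ?_, ?_⟩
  · intro d hd
    exact ((expectedTime_le hd).trans_lt ENNReal.ofReal_lt_top).ne
  · have h : competitiveRatio (1 / 3) tt ≤ ENNReal.ofReal (183 / 50) := by
      refine iSup₂_le fun d hd => ?_
      refine ENNReal.div_le_of_le_mul ?_
      rw [← ENNReal.ofReal_mul (by norm_num)]
      calc ENNReal.ofReal (1 / 3) * expectedTime (1 / 3) tt d
          ≤ ENNReal.ofReal (1 / 3) * ENNReal.ofReal (549 / 50 * d) := by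
            gcongr; exact expectedTime_le hd
        _ = ENNReal.ofReal (183 / 50 * d) := by
            rw [← ENNReal.ofReal_mul (by norm_num)]; congr 1; ring
    refine h.trans_lt ?_
    rw [ENNReal.ofReal_lt_ofReal_iff (by norm_num)]
    norm_num

end Pool.Agent.Results.MP_1aa7fe_lc.BelowFourMinusP
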